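import Mathlib
set_option autoImplicit false

namespace Pool.Agent.Results.MP_c17804_co.CriticalJoins

open SimpleGraph

/-- `G` is `k`-critical: its chromatic number is `k` and every proper subgraph has smaller
chromatic number. -/
def IsCritical (k : ℕ) {V : Type} (G : SimpleGraph V) : Prop :=
  G.chromaticNumber = (k : ℕ∞) ∧ ∀ S : G.Subgraph, S ≠ ⊤ → S.coe.chromaticNumber < (k : ℕ∞)

/-- `H` is a Hajos join of `G1` and `G2`: for some edges `x1 y1` of `G1` and `x2 y2` of `G2`, the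
graph `H` arises from disjoint copies of `G1` and `G2` (placed in `H` by the injections `f1` and
`f2`) by deleting both edges, identifying `x1` with `x2`, and adding the edge `y1 y2`. -/
def IsHajosJoin {a b m : ℕ} (G1 : SimpleGraph (Fin a)) (G2 : SimpleGraph (Fin b))
    (H : SimpleGraph (Fin m)) : Prop :=
  ∃ (x1 y1 : Fin a) (x2 y2 : Fin b) (f1 : Fin a → Fin m) (f2 : Fin b → Fin m),
    G1.Adj x1 y1 ∧ G2.Adj x2 y2 ∧
    Function.Injective f1 ∧ Function.Injective f2 ∧ f1 x1 = f2 x2 ∧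
    (∀ p q, f1 p = f2 q → p = x1 ∧ q = x2) ∧
    (∀ z, (∃ p, f1 p = z) ∨ ∃ q, f2 q = z) ∧
    ∀ z w, H.Adj z w ↔
      (∃ p q, (G1.deleteEdges {s(x1, y1)}).Adj p q ∧ f1 p = z ∧ f1 q = w) ∨
      (∃ p q, (G2.deleteEdges {s(x2, y2)}).Adj p q ∧ f2 p = z ∧ f2 q = w) ∨
      s(z, w) = s(f1 y1, f2 y2)

/-- `H` arises from `G` by identifying two non-adjacent vertices `u`, `v` (multiple edges being
replaced by single edges): `f` is the quotient map. -/
def IsIdentification {n m : ℕ} (G : SimpleGraph (Fin n)) (H : SimpleGraph (Fin m)) : Prop :=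
  ∃ (u v : Fin n) (f : Fin n → Fin m), u ≠ v ∧ ¬ G.Adj u v ∧ Function.Surjective f ∧
    (∀ a b, f a = f b ↔ a = b ∨ (a = u ∧ b = v) ∨ (a = v ∧ b = u)) ∧
    ∀ z w, H.Adj z w ↔ ∃ p q, G.Adj p q ∧ f p = z ∧ f q = w

/-- The graphs with a construction from copies of `K_k` by Hajos joins and identifications of
non-adjacent vertices in which every Hajos join is applied to two `k`-critical graphs. -/
inductive Constructible (k : ℕ) : {n : ℕ} → SimpleGraph (Fin n) → Prop
  | complete {n : ℕ} (G : SimpleGraph (Fin n)) (h : Nonempty (G ≃g (⊤ : SimpleGraph (Fin k)))) :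
      Constructible k G
  | join {a b m : ℕ} (G1 : SimpleGraph (Fin a)) (G2 : SimpleGraph (Fin b))
      (H : SimpleGraph (Fin m)) (h1 : Constructible k G1) (h2 : Constructible k G2)
      (hc1 : IsCritical k G1) (hc2 : IsCritical k G2) (h : IsHajosJoin G1 G2 H) :
      Constructible k H
  | identify {n m : ℕ} (G : SimpleGraph (Fin n)) (H : SimpleGraph (Fin m))
      (h1 : Constructible k G) (h : IsIdentification G H) : Constructible k H

/-- `G` is `(q+1)`-critical, in terms of explicit colourings. -/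
def Cr (q : ℕ) {V : Type} (G : SimpleGraph V) : Prop :=
  (∀ c : V → Fin q, ∃ u v, G.Adj u v ∧ c u = c v) ∧
  (∀ a b, G.Adj a b → ∃ c : V → Fin q, ∀ u v, G.Adj u v → s(u, v) ≠ s(a, b) → c u ≠ c v) ∧
  (∀ v, ∃ u, G.Adj v u)

lemma Cr.eq {q : ℕ} {V : Type} {G : SimpleGraph V} (h : Cr q G) {a b : V}
    (c : V → Fin q) (hc : ∀ u v, G.Adj u v → s(u, v) ≠ s(a, b) → c u ≠ c v) : c a = c b := by
  obtain ⟨u, v, huv, he⟩ := h.1 c
  by_contra hne
  by_cases hs : s(u, v) = s(a, b)
  · rw [Sym2.eq_iff] at hs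
    rcases hs with ⟨rfl, rfl⟩ | ⟨rfl, rfl⟩
    · exact hne he
    · exact hne he.symm
  · exact hc u v huv hs he

lemma Cr.other {q : ℕ} (hq : 2 ≤ q) {V : Type} {G : SimpleGraph V} (h : Cr q G) {x y : V}
    (hxy : G.Adj x y) : ∃ y', y' ≠ y ∧ G.Adj x y' := by
  classical
  by_contra hcon
  push Not at hcon
  obtain ⟨c, hc⟩ := h.2.1 x y hxy
  obtain ⟨d, hd⟩ : ∃ d : Fin q, d ≠ c y := by
    have : Nontrivial (Fin q) := Fin.nontrivial_iff_two_le.2 hq
    exact exists_ne _
  obtain ⟨u, v, huv, he⟩ := h.1 (Function.update c x d)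
  by_cases hu : u = x
  · subst hu
    have hv : v = y := by
      by_contra hv; exact hcon v hv huv
    subst hv
    rw [Function.update_self, Function.update_of_ne huv.ne'] at he
    exact hd he
  · by_cases hv : v = x
    · subst hv
      have hu' : u = y := by
        by_contra hu'; exact hcon u hu' huv.symm
      subst hu'
      rw [Function.update_self, Function.update_of_ne hu] at he
      exact hd he.symm
    · rw [Function.update_of_ne hu, Function.update_of_ne hv] at he
      refine hc u v huv ?_ he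
      intro hs
      rw [Sym2.eq_iff] at hs
      rcases hs with ⟨h1, _⟩ | ⟨_, h1⟩
      · exact hu h1
      · exact hv h1

lemma perm1 {q : ℕ} (a a' : Fin q) : ∃ σ : Equiv.Perm (Fin q), σ a = a' :=
  ⟨Equiv.swap a a', Equiv.swap_apply_left _ _⟩

lemma perm2 {q : ℕ} {a b a' b' : Fin q} (h : a ≠ b) (h' : a' ≠ b') :
    ∃ σ : Equiv.Perm (Fin q), σ a = a' ∧ σ b = b' := by
  refine ⟨(Equiv.swap a a').trans (Equiv.swap (Equiv.swap a a' b) b'), ?_, ?_⟩
  · simp only [Equiv.trans_apply, Equiv.swap_apply_left]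
    refine Equiv.swap_apply_of_ne_of_ne ?_ h'
    intro h2
    apply h
    apply (Equiv.swap a a').injective
    rw [← h2, Equiv.swap_apply_left]
  · simp

structure Glue {V1 V2 M : Type} (x1 : V1) (x2 : V2) (f1 : V1 → M) (f2 : V2 → M) : Prop where
  inj1 : Function.Injective f1
  inj2 : Function.Injective f2
  glue : f1 x1 = f2 x2
  sep : ∀ p q, f1 p = f2 q → p = x1 ∧ q = x2
  cover : ∀ z, (∃ p, f1 p = z) ∨ (∃ q, f2 q = z)

lemma Glue.lift {V1 V2 M α : Type} {x1 : V1} {x2 : V2} {f1 : V1 → M} {f2 : V2 → M}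
    (g : Glue x1 x2 f1 f2) (c1 : V1 → α) (c2 : V2 → α) (h : c1 x1 = c2 x2) :
    ∃ c : M → α, (∀ p, c (f1 p) = c1 p) ∧ ∀ q, c (f2 q) = c2 q := by
  classical
  have : ∀ z, ∃ r : α, (∀ p, f1 p = z → r = c1 p) ∧ (∀ q, f2 q = z → r = c2 q) := by
    intro z
    rcases g.cover z with ⟨p, hp⟩ | ⟨q, hq⟩
    · refine ⟨c1 p, fun p' hp' => by rw [g.inj1 (hp'.trans hp.symm)], fun q hq => ?_⟩
      obtain ⟨h1, h2⟩ := g.sep p q (hp.trans hq.symm)
      rw [h1, h2, h]
    · refine ⟨c2 q, fun p hp => ?_, fun q' hq' => by rw [g.inj2 (hq'.trans hq.symm)]⟩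
      obtain ⟨h1, h2⟩ := g.sep p q (hp.trans hq.symm)
      rw [h1, h2, h]
  choose c hc using this
  exact ⟨c, fun p => (hc _).1 p rfl, fun q => (hc _).2 q rfl⟩

lemma exists_glue (a b : ℕ) (x1 : Fin a) (x2 : Fin b) :
    ∃ (m : ℕ) (f1 : Fin a → Fin m) (f2 : Fin b → Fin m), Glue x1 x2 f1 f2 := by
  classical
  let e := Fintype.equivFin (Fin a ⊕ {v : Fin b // v ≠ x2})
  refine ⟨_, fun p => e (Sum.inl p),
    fun v => if h : v = x2 then e (Sum.inl x1) else e (Sum.inr ⟨v, h⟩), ?_, ?_, ?_, ?_, ?_⟩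
  · intro u v h
    exact Sum.inl_injective (e.injective h)
  · intro u v h
    simp only at h
    split_ifs at h with h1 h2 h2
    · rw [h1, h2]
    · have := e.injective h
      cases this
    · have := e.injective h
      cases this
    · have := Sum.inr_injective (e.injective h)
      exact congrArg Subtype.val this
  · simp
  · intro p v h
    split_ifs at h with h1
    · exact ⟨Sum.inl_injective (e.injective h), h1⟩
    · have := e.injective h
      cases this
  · intro z
    obtain ⟨y, rfl⟩ := e.surjective z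
    rcases y with p | ⟨v, hv⟩
    · exact Or.inl ⟨p, rfl⟩
    · refine Or.inr ⟨v, ?_⟩
      simp [hv]

/-- The adjacency relation of a Hajos join. -/
def JR {V1 V2 M : Type} (T1 : SimpleGraph V1) (T2 : SimpleGraph V2) (x1 y1 : V1) (x2 y2 : V2)
    (f1 : V1 → M) (f2 : V2 → M) (z w : M) : Prop :=
  (∃ p q, T1.Adj p q ∧ s(p, q) ≠ s(x1, y1) ∧ f1 p = z ∧ f1 q = w) ∨
  (∃ p q, T2.Adj p q ∧ s(p, q) ≠ s(x2, y2) ∧ f2 p = z ∧ f2 q = w) ∨
  (z = f1 y1 ∧ w = f2 y2) ∨ (z = f2 y2 ∧ w = f1 y1)

/-- The Hajos join. -/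
def joinG {V1 V2 M : Type} (T1 : SimpleGraph V1) (T2 : SimpleGraph V2) (x1 y1 : V1) (x2 y2 : V2)
    (f1 : V1 → M) (f2 : V2 → M) (g : Glue x1 x2 f1 f2) (h1 : T1.Adj x1 y1) : SimpleGraph M where
  Adj := JR T1 T2 x1 y1 x2 y2 f1 f2
  symm := by
    refine ⟨?_⟩
    rintro z w (⟨p, q, h, h', rfl, rfl⟩ | ⟨p, q, h, h', rfl, rfl⟩ | ⟨rfl, rfl⟩ | ⟨rfl, rfl⟩)
    · exact Or.inl ⟨q, p, h.symm, by rwa [Sym2.eq_swap], rfl, rfl⟩
    · exact Or.inr (Or.inl ⟨q, p, h.symm, by rwa [Sym2.eq_swap], rfl, rfl⟩)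
    · exact Or.inr (Or.inr (Or.inr ⟨rfl, rfl⟩))
    · exact Or.inr (Or.inr (Or.inl ⟨rfl, rfl⟩))
  loopless := by
    refine ⟨fun z => ?_⟩
    rintro (⟨p, q, h, h', hp, hq⟩ | ⟨p, q, h, h', hp, hq⟩ | ⟨hz, hw⟩ | ⟨hz, hw⟩)
    · exact h.ne (g.inj1 (hp.trans hq.symm))
    · exact h.ne (g.inj2 (hp.trans hq.symm))
    · exact h1.ne' (g.sep _ _ (hz.symm.trans hw)).1
    · exact h1.ne' (g.sep _ _ (hw.symm.trans hz)).1

lemma join_cr {q : ℕ} (hq : 2 ≤ q) {V1 V2 M : Type} {T1 : SimpleGraph V1} {T2 : SimpleGraph V2}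
    {x1 y1 : V1} {x2 y2 : V2} {f1 : V1 → M} {f2 : V2 → M} (g : Glue x1 x2 f1 f2)
    (hT1 : Cr q T1) (hT2 : Cr q T2) (h1 : T1.Adj x1 y1) (h2 : T2.Adj x2 y2) :
    Cr q (joinG T1 T2 x1 y1 x2 y2 f1 f2 g h1) := by
  refine ⟨?_, ?_, ?_⟩
  · intro c
    by_contra hcon
    push Not at hcon
    have e1 : c (f1 x1) = c (f1 y1) :=
      hT1.eq (fun u => c (f1 u)) (fun u v huv hs => hcon _ _ (Or.inl ⟨u, v, huv, hs, rfl, rfl⟩))
    have e2 : c (f2 x2) = c (f2 y2) :=
      hT2.eq (fun u => c (f2 u))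
        (fun u v huv hs => hcon _ _ (Or.inr (Or.inl ⟨u, v, huv, hs, rfl, rfl⟩)))
    refine hcon (f1 y1) (f2 y2) (Or.inr (Or.inr (Or.inl ⟨rfl, rfl⟩))) ?_
    rw [← e1, ← e2, g.glue]
  · intro z w hzw
    rcases hzw with ⟨p, p', h, h', rfl, rfl⟩ | ⟨p, p', h, h', rfl, rfl⟩ | hnew
    · obtain ⟨c1, hc1⟩ := hT1.2.1 p p' h
      obtain ⟨c2, hc2⟩ := hT2.2.1 x2 y2 h2
      obtain ⟨σ, hσ⟩ := perm1 (c2 x2) (c1 x1)
      obtain ⟨c, hca, hcb⟩ := g.lift c1 (fun u => σ (c2 u)) hσ.symm
      have e2 := hT2.eq c2 hc2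
      have e1 := hc1 x1 y1 h1 h'.symm
      refine ⟨c, ?_⟩
      rintro u v (⟨s, t, hst, hs', rfl, rfl⟩ | ⟨s, t, hst, hs', rfl, rfl⟩ | ⟨rfl, rfl⟩ | ⟨rfl, rfl⟩) hne
      · rw [hca, hca]
        refine hc1 s t hst ?_
        intro hh
        apply hne
        have := congrArg (Sym2.map f1) hh
        simpa using this
      · rw [hcb, hcb]
        exact fun hh => hc2 s t hst hs' (σ.injective hh)
      · rw [hca, hcb, ← e2, hσ]
        exact e1.symm
      · rw [hca, hcb, ← e2, hσ]
        exact e1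
    · obtain ⟨c2, hc2⟩ := hT2.2.1 p p' h
      obtain ⟨c1, hc1⟩ := hT1.2.1 x1 y1 h1
      obtain ⟨σ, hσ⟩ := perm1 (c1 x1) (c2 x2)
      obtain ⟨c, hca, hcb⟩ := g.lift (fun u => σ (c1 u)) c2 hσ
      have e1 := hT1.eq c1 hc1
      have e2 := hc2 x2 y2 h2 h'.symm
      refine ⟨c, ?_⟩
      rintro u v (⟨s, t, hst, hs', rfl, rfl⟩ | ⟨s, t, hst, hs', rfl, rfl⟩ | ⟨rfl, rfl⟩ | ⟨rfl, rfl⟩) hne
      · rw [hca, hca]
        exact fun hh => hc1 s t hst hs' (σ.injective hh)
      · rw [hcb, hcb]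
        refine hc2 s t hst ?_
        intro hh
        apply hne
        have := congrArg (Sym2.map f2) hh
        simpa using this
      · rw [hca, hcb, ← e1, hσ]
        exact e2
      · rw [hca, hcb, ← e1, hσ]
        exact e2.symm
    · obtain ⟨c1, hc1⟩ := hT1.2.1 x1 y1 h1
      obtain ⟨c2, hc2⟩ := hT2.2.1 x2 y2 h2
      obtain ⟨σ, hσ⟩ := perm1 (c1 x1) (c2 x2)
      obtain ⟨c, hca, hcb⟩ := g.lift (fun u => σ (c1 u)) c2 hσ
      have hzw' : s(z, w) = s(f1 y1, f2 y2) := by
        rcases hnew with ⟨rfl, rfl⟩ | ⟨rfl, rfl⟩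
        · rfl
        · exact Sym2.eq_swap
      refine ⟨c, ?_⟩
      rintro u v (⟨s, t, hst, hs', rfl, rfl⟩ | ⟨s, t, hst, hs', rfl, rfl⟩ | ⟨rfl, rfl⟩ | ⟨rfl, rfl⟩) hne
      · rw [hca, hca]
        exact fun hh => hc1 s t hst hs' (σ.injective hh)
      · rw [hcb, hcb]
        exact hc2 s t hst hs'
      · exact absurd hzw'.symm hne
      · exact absurd (Sym2.eq_swap.trans hzw'.symm) hne
  · intro z
    rcases g.cover z with ⟨p, rfl⟩ | ⟨p, rfl⟩
    · by_cases hp : p = x1
      · subst hp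
        obtain ⟨y', hy', hadj⟩ := hT1.other hq h1
        refine ⟨f1 y', Or.inl ⟨p, y', hadj, ?_, rfl, rfl⟩⟩
        intro hs
        rw [Sym2.eq_iff] at hs
        rcases hs with ⟨_, h⟩ | ⟨h, h'⟩
        · exact hy' h
        · exact h1.ne h
      · by_cases hp' : p = y1
        · subst hp'
          exact ⟨f2 y2, Or.inr (Or.inr (Or.inl ⟨rfl, rfl⟩))⟩
        · obtain ⟨u, hu⟩ := hT1.2.2 p
          refine ⟨f1 u, Or.inl ⟨p, u, hu, ?_, rfl, rfl⟩⟩
          intro hs
          rw [Sym2.eq_iff] at hs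
          rcases hs with ⟨h, _⟩ | ⟨h, _⟩
          · exact hp h
          · exact hp' h
    · by_cases hp : p = x2
      · subst hp
        obtain ⟨y', hy', hadj⟩ := hT2.other hq h2
        refine ⟨f2 y', Or.inr (Or.inl ⟨p, y', hadj, ?_, rfl, rfl⟩)⟩
        intro hs
        rw [Sym2.eq_iff] at hs
        rcases hs with ⟨_, h⟩ | ⟨h, h'⟩
        · exact hy' h
        · exact h2.ne h
      · by_cases hp' : p = y2
        · subst hp'
          exact ⟨f1 y1, Or.inr (Or.inr (Or.inr ⟨rfl, rfl⟩))⟩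
        · obtain ⟨u, hu⟩ := hT2.2.2 p
          refine ⟨f2 u, Or.inr (Or.inl ⟨p, u, hu, ?_, rfl, rfl⟩)⟩
          intro hs
          rw [Sym2.eq_iff] at hs
          rcases hs with ⟨h, _⟩ | ⟨h, _⟩
          · exact hp h
          · exact hp' h


/-- The closure properties of the frozen statement, with criticality expressed by `Cr`. -/
structure Cl (q : ℕ) (C : (n : ℕ) → SimpleGraph (Fin n) → Prop) : Prop where
  top : C (q + 1) (⊤ : SimpleGraph (Fin (q + 1)))
  iso : ∀ (n m : ℕ) (G : SimpleGraph (Fin n)) (H : SimpleGraph (Fin m)),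
    C n G → Nonempty (G ≃g H) → C m H
  join : ∀ (a b m : ℕ) (G1 : SimpleGraph (Fin a)) (G2 : SimpleGraph (Fin b))
    (x1 y1 : Fin a) (x2 y2 : Fin b) (f1 : Fin a → Fin m) (f2 : Fin b → Fin m)
    (g : Glue x1 x2 f1 f2) (h1 : G1.Adj x1 y1),
    C a G1 → C b G2 → Cr q G1 → Cr q G2 → G2.Adj x2 y2 →
    C m (joinG G1 G2 x1 y1 x2 y2 f1 f2 g h1)
  ident : ∀ (n m : ℕ) (G : SimpleGraph (Fin n)) (H : SimpleGraph (Fin m))
    (u v : Fin n) (f : Fin n → Fin m),
    C n G → u ≠ v → ¬ G.Adj u v → Function.Surjective f → f u = f v →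
    (∀ a b, f a = f b → a = b ∨ (a = u ∧ b = v) ∨ (a = v ∧ b = u)) →
    (∀ z w, H.Adj z w ↔ ∃ p q, G.Adj p q ∧ f p = z ∧ f q = w) →
    C m H

lemma quot {q : ℕ} {C : (n : ℕ) → SimpleGraph (Fin n) → Prop} (hC : Cl q C) :
    ∀ (n : ℕ) (T : SimpleGraph (Fin n)) (m : ℕ) (X : SimpleGraph (Fin m)) (f : Fin n → Fin m),
      C n T → Function.Surjective f →
      (∀ z w, X.Adj z w ↔ ∃ p q, T.Adj p q ∧ f p = z ∧ f q = w) → C m X := by
  intro n
  induction n with
  | zero =>
    intro T m X f hT hf hX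
    refine hC.iso 0 m T X hT ⟨⟨Equiv.ofBijective f ⟨fun a => a.elim0, hf⟩, ?_⟩⟩
    intro a
    exact a.elim0
  | succ n ih =>
    intro T m X f hT hf hX
    by_cases hinj : Function.Injective f
    · refine hC.iso _ m T X hT ⟨⟨Equiv.ofBijective f ⟨hinj, hf⟩, ?_⟩⟩
      intro a b
      show X.Adj (f a) (f b) ↔ T.Adj a b
      rw [hX]
      constructor
      · rintro ⟨p, r, h, hp, hr⟩
        rwa [← hinj hp, ← hinj hr]
      · intro h
        exact ⟨a, b, h, rfl, rfl⟩
    · obtain ⟨u, v, huv, hne⟩ := Function.not_injective_iff.1 hinj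
      have hnadj : ¬ T.Adj u v := by
        intro h
        have := (hX (f u) (f v)).2 ⟨u, v, h, rfl, rfl⟩
        exact this.ne huv
      have hex : ∀ x : Fin (n + 1), ∃ y : Fin n, v.succAbove y = if x = v then u else x := by
        intro x
        have : (if x = v then u else x) ≠ v := by
          split_ifs with h
          · exact hne
          · exact h
        exact Fin.exists_succAbove_eq this
      choose g hg using hex
      have hg2 : ∀ y, g (v.succAbove y) = y := by
        intro y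
        apply (Fin.succAbove_right_injective (p := v))
        rw [hg, if_neg (Fin.succAbove_ne v y)]
      have hgg : ∀ a b, g a = g b → a = b ∨ (a = u ∧ b = v) ∨ (a = v ∧ b = u) := by
        intro a b hab
        have h1 := hg a
        have h2 := hg b
        rw [hab] at h1
        rw [h1] at h2
        split_ifs at h2 with h3 h4 h4
        · exact Or.inl (h3.trans h4.symm)
        · exact Or.inr (Or.inr ⟨h3, h2.symm⟩)
        · exact Or.inr (Or.inl ⟨h2, h4⟩)
        · exact Or.inl h2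
      have hguv : g u = g v := by
        apply (Fin.succAbove_right_injective (p := v))
        rw [hg, hg, if_neg hne, if_pos rfl]
      let T' : SimpleGraph (Fin n) :=
        { Adj := fun z w => ∃ p r, T.Adj p r ∧ g p = z ∧ g r = w
          symm := by
            refine ⟨?_⟩
            rintro z w ⟨p, r, h, hp, hr⟩
            exact ⟨r, p, h.symm, hr, hp⟩
          loopless := by
            refine ⟨?_⟩
            rintro z ⟨p, r, h, hp, hr⟩
            rcases hgg p r (hp.trans hr.symm) with h1 | ⟨h1, h2⟩ | ⟨h1, h2⟩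
            · exact h.ne h1
            · rw [h1, h2] at h; exact hnadj h
            · rw [h1, h2] at h; exact hnadj h.symm }
      have hT' : C n T' := by
        refine hC.ident (n + 1) n T T' u v g hT hne hnadj ?_ hguv hgg (fun z w => Iff.rfl)
        intro y
        exact ⟨_, hg2 y⟩
      have hfg : ∀ x, f (v.succAbove (g x)) = f x := by
        intro x
        rw [hg]
        split_ifs with h
        · rw [h]; exact huv
        · rfl
      refine ih T' m X (fun y => f (v.succAbove y)) hT' ?_ ?_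
      · intro z
        obtain ⟨x, rfl⟩ := hf z
        exact ⟨g x, hfg x⟩
      · intro z w
        rw [hX]
        constructor
        · rintro ⟨p, r, h, hp, hr⟩
          exact ⟨g p, g r, ⟨p, r, h, rfl, rfl⟩, (hfg p).trans hp, (hfg r).trans hr⟩
        · rintro ⟨p, r, ⟨p', r', h, rfl, rfl⟩, hp, hr⟩
          exact ⟨p', r', h, (hfg p').symm.trans hp, (hfg r').symm.trans hr⟩

/-- `X` receives a homomorphism from a constructible critical graph. -/
def InD (q : ℕ) (C : (n : ℕ) → SimpleGraph (Fin n) → Prop) {W : Type} (X : SimpleGraph W) : Prop :=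
  ∃ (n : ℕ) (T : SimpleGraph (Fin n)), Cr q T ∧ C n T ∧
    ∃ φ : Fin n → W, ∀ u v, T.Adj u v → X.Adj (φ u) (φ v)

lemma mem_of_inD {q : ℕ} {C : (n : ℕ) → SimpleGraph (Fin n) → Prop} (hC : Cl q C) {m : ℕ}
    (X : SimpleGraph (Fin m)) (hX : Cr q X) (h : InD q C X) : C m X := by
  obtain ⟨n, T, hT, hCT, φ, hφ⟩ := h
  have hedge : ∀ z w, X.Adj z w → ∃ p r, T.Adj p r ∧ φ p = z ∧ φ r = w := by
    intro z w hzw
    by_contra hcon
    push Not at hcon
    obtain ⟨c, hc⟩ := hX.2.1 z w hzw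
    obtain ⟨u, v, huv, he⟩ := hT.1 (fun x => c (φ x))
    refine hc _ _ (hφ u v huv) ?_ he
    intro hs
    rw [Sym2.eq_iff] at hs
    rcases hs with ⟨h1, h2⟩ | ⟨h1, h2⟩
    · exact hcon u v huv h1 h2
    · exact hcon v u huv.symm h2 h1
  refine quot hC n T m X φ hCT ?_ ?_
  · intro z
    obtain ⟨w, hw⟩ := hX.2.2 z
    obtain ⟨p, r, _, hp, _⟩ := hedge z w hw
    exact ⟨p, hp⟩
  · intro z w
    constructor
    · exact hedge z w
    · rintro ⟨p, r, h, rfl, rfl⟩
      exact hφ p r h

lemma merge {q : ℕ} (hq : 2 ≤ q) {C : (n : ℕ) → SimpleGraph (Fin n) → Prop} (hC : Cl q C)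
    {W : Type} (X : SimpleGraph W) {b : ℕ} (T2 : SimpleGraph (Fin b)) (hT2 : Cr q T2)
    (hC2 : C b T2) (p r : Fin b) (hpr : T2.Adj p r) (ψ : Fin b → W)
    (hψ : ∀ u v, T2.Adj u v → s(u, v) ≠ s(p, r) → X.Adj (ψ u) (ψ v)) :
    ∀ (N a : ℕ) (T : SimpleGraph (Fin a)) (φ : Fin a → W), Cr q T → C a T →
      (∀ u v, T.Adj u v → X.Adj (φ u) (φ v) ∨ (φ u = ψ p ∧ X.Adj (ψ r) (φ v)) ∨
        (φ v = ψ p ∧ X.Adj (ψ r) (φ u))) →
      (Set.ncard {e : Fin a × Fin a | T.Adj e.1 e.2 ∧ ¬ X.Adj (φ e.1) (φ e.2)}) ≤ N →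
      InD q C X := by
  intro N
  induction N with
  | zero =>
    intro a T φ hT hCT hφ hN
    refine ⟨a, T, hT, hCT, φ, fun u v huv => ?_⟩
    by_contra hcon
    have h0 : {e : Fin a × Fin a | T.Adj e.1 e.2 ∧ ¬ X.Adj (φ e.1) (φ e.2)} = ∅ := by
      rw [← Set.ncard_eq_zero (Set.toFinite _)]
      omega
    have : (u, v) ∈ {e : Fin a × Fin a | T.Adj e.1 e.2 ∧ ¬ X.Adj (φ e.1) (φ e.2)} := ⟨huv, hcon⟩
    rw [h0] at this
    exact this
  | succ N ih =>
    intro a T φ hT hCT hφ hN
    by_cases hgood : ∀ u v, T.Adj u v → X.Adj (φ u) (φ v)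
    · exact ⟨a, T, hT, hCT, φ, hgood⟩
    · have hbad : ∃ u v, T.Adj u v ∧ ¬ X.Adj (φ u) (φ v) ∧ φ u = ψ p ∧ X.Adj (ψ r) (φ v) := by
        push Not at hgood
        obtain ⟨u, v, huv, hn⟩ := hgood
        rcases hφ u v huv with h | ⟨h1, h2⟩ | ⟨h1, h2⟩
        · exact absurd h hn
        · exact ⟨u, v, huv, hn, h1, h2⟩
        · exact ⟨v, u, huv.symm, fun h => hn h.symm, h1, h2⟩
      obtain ⟨u, v, huv, hn, h1, h2⟩ := hbad
      obtain ⟨m, f1, f2, g⟩ := exists_glue a b u p
      obtain ⟨φ', ha, hb⟩ := g.lift φ ψ h1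
      refine ih m (joinG T T2 u v p r f1 f2 g huv) φ' (join_cr hq g hT hT2 huv hpr)
        (hC.join a b m T T2 u v p r f1 f2 g huv hCT hC2 hT hT2 hpr) ?_ ?_
      · rintro z w (⟨s, t, hst, hs', rfl, rfl⟩ | ⟨s, t, hst, hs', rfl, rfl⟩ | ⟨rfl, rfl⟩ | ⟨rfl, rfl⟩)
        · rw [ha, ha]
          exact hφ s t hst
        · rw [hb, hb]
          exact Or.inl (hψ s t hst hs')
        · rw [ha, hb]
          exact Or.inl h2.symm
        · rw [ha, hb]
          exact Or.inl h2
      · have hsub : {e : Fin m × Fin m | (joinG T T2 u v p r f1 f2 g huv).Adj e.1 e.2 ∧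
            ¬ X.Adj (φ' e.1) (φ' e.2)} ⊆
            (Prod.map f1 f1) '' ({e : Fin a × Fin a | T.Adj e.1 e.2 ∧ ¬ X.Adj (φ e.1) (φ e.2)} \
              {(u, v)}) := by
          rintro ⟨z, w⟩ ⟨h3 | h3 | h3 | h3, h4⟩
          · obtain ⟨s, t, hst, hs', hz, hw⟩ := h3
            simp only at hz hw h4
            subst hz
            subst hw
            rw [ha, ha] at h4
            refine ⟨(s, t), ⟨⟨hst, h4⟩, ?_⟩, rfl⟩
            intro hh
            rw [Set.mem_singleton_iff, Prod.mk.injEq] at hh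
            apply hs'
            rw [hh.1, hh.2]
          · obtain ⟨s, t, hst, hs', hz, hw⟩ := h3
            simp only at hz hw h4
            subst hz
            subst hw
            rw [hb, hb] at h4
            exact absurd (hψ s t hst hs') h4
          · obtain ⟨hz, hw⟩ := h3
            simp only at hz hw h4
            subst hz
            subst hw
            rw [ha, hb] at h4
            exact absurd h2.symm h4
          · obtain ⟨hz, hw⟩ := h3
            simp only at hz hw h4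
            subst hz
            subst hw
            rw [ha, hb] at h4
            exact absurd h2 h4
        have hmem : (u, v) ∈ {e : Fin a × Fin a | T.Adj e.1 e.2 ∧ ¬ X.Adj (φ e.1) (φ e.2)} :=
          ⟨huv, hn⟩
        have l1 := Set.ncard_le_ncard hsub (Set.toFinite _)
        have l2 := Set.ncard_image_le (f := Prod.map f1 f1) (s := ({e : Fin a × Fin a | T.Adj e.1 e.2 ∧
          ¬ X.Adj (φ e.1) (φ e.2)} \ {(u, v)})) (Set.toFinite _)
        have l3 := Set.ncard_sdiff_singleton_lt_of_mem hmem (Set.toFinite _)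
        omega


/-- The adjacency relation of an Ore composition. -/
def OR {V1 V2 M : Type} (T1 : SimpleGraph V1) (T2 : SimpleGraph V2) (w : V1) (S : V1 → Prop)
    (p r : V2) (f1 : V1 → M) (f2 : V2 → M) (z z' : M) : Prop :=
  (∃ u v, T1.Adj u v ∧ ¬ (u = w ∧ S v) ∧ ¬ (v = w ∧ S u) ∧ f1 u = z ∧ f1 v = z') ∨
  (∃ u v, T2.Adj u v ∧ s(u, v) ≠ s(p, r) ∧ f2 u = z ∧ f2 v = z') ∨
  (∃ v, T1.Adj w v ∧ S v ∧ ((z = f1 v ∧ z' = f2 r) ∨ (z = f2 r ∧ z' = f1 v)))

/-- The Ore composition. -/
def oreG {V1 V2 M : Type} (T1 : SimpleGraph V1) (T2 : SimpleGraph V2) (w : V1) (S : V1 → Prop)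
    (p r : V2) (f1 : V1 → M) (f2 : V2 → M) (g : Glue w p f1 f2) : SimpleGraph M where
  Adj := OR T1 T2 w S p r f1 f2
  symm := by
    refine ⟨?_⟩
    rintro z z' (⟨u, v, h, h', h'', rfl, rfl⟩ | ⟨u, v, h, h', rfl, rfl⟩ | ⟨v, h, h', h'' | h''⟩)
    · exact Or.inl ⟨v, u, h.symm, h'', h', rfl, rfl⟩
    · exact Or.inr (Or.inl ⟨v, u, h.symm, by rwa [Sym2.eq_swap], rfl, rfl⟩)
    · exact Or.inr (Or.inr ⟨v, h, h', Or.inr ⟨h''.2, h''.1⟩⟩)
    · exact Or.inr (Or.inr ⟨v, h, h', Or.inl ⟨h''.2, h''.1⟩⟩)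
  loopless := by
    refine ⟨fun z => ?_⟩
    rintro (⟨u, v, h, h', h'', hu, hv⟩ | ⟨u, v, h, h', hu, hv⟩ | ⟨v, h, h', ⟨h1, h2⟩ | ⟨h1, h2⟩⟩)
    · exact h.ne (g.inj1 (hu.trans hv.symm))
    · exact h.ne (g.inj2 (hu.trans hv.symm))
    · exact h.ne' (g.sep _ _ (h1.symm.trans h2)).1
    · exact h.ne' (g.sep _ _ (h2.symm.trans h1)).1

lemma ore_cr {q : ℕ} (hq : 2 ≤ q) {V1 V2 M : Type} {T1 : SimpleGraph V1} {T2 : SimpleGraph V2}
    {w : V1} {S : V1 → Prop} {p r : V2} {f1 : V1 → M} {f2 : V2 → M} (g : Glue w p f1 f2)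
    (hT1 : Cr q T1) (hT2 : Cr q T2) (hpr : T2.Adj p r) (c1 : V1 → Fin q) (d : Fin q)
    (hc1 : ∀ u v, T1.Adj u v → ¬ (u = w ∧ S v) → ¬ (v = w ∧ S u) → c1 u ≠ c1 v)
    (hd : ∀ v, T1.Adj w v → S v → c1 v ≠ d) :
    Cr q (oreG T1 T2 w S p r f1 f2 g) := by
  classical
  have hwd : c1 w ≠ d := by
    intro hwd
    obtain ⟨u, v, huv, he⟩ := hT1.1 c1
    by_cases h1 : u = w ∧ S v
    · obtain ⟨rfl, hS⟩ := h1
      exact hd v huv hS (he.symm.trans hwd)
    · by_cases h2 : v = w ∧ S u
      · obtain ⟨rfl, hS⟩ := h2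
        exact hd u huv.symm hS (he.trans hwd)
      · exact hc1 u v huv h1 h2 he
  refine ⟨?_, ?_, ?_⟩
  · intro c
    by_contra hcon
    push Not at hcon
    have e2 : c (f2 p) = c (f2 r) :=
      hT2.eq (fun u => c (f2 u))
        (fun u v huv hs => hcon _ _ (Or.inr (Or.inl ⟨u, v, huv, hs, rfl, rfl⟩)))
    obtain ⟨u, v, huv, he⟩ := hT1.1 (fun u => c (f1 u))
    by_cases h1 : u = w ∧ S v
    · obtain ⟨rfl, hS⟩ := h1
      refine hcon (f1 v) (f2 r) (Or.inr (Or.inr ⟨v, huv, hS, Or.inl ⟨rfl, rfl⟩⟩)) ?_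
      rw [← e2, ← g.glue]
      exact he.symm
    · by_cases h2 : v = w ∧ S u
      · obtain ⟨rfl, hS⟩ := h2
        refine hcon (f1 u) (f2 r) (Or.inr (Or.inr ⟨u, huv.symm, hS, Or.inl ⟨rfl, rfl⟩⟩)) ?_
        rw [← e2, ← g.glue]
        exact he
      · exact hcon _ _ (Or.inl ⟨u, v, huv, h1, h2, rfl, rfl⟩) he
  · -- deleting an edge of the first part
    have key1 : ∀ s t, T1.Adj s t → ∃ c : M → Fin q,
        (∀ u v, T1.Adj u v → s(u, v) ≠ s(s, t) → c (f1 u) ≠ c (f1 v)) ∧
        (∀ u v, T2.Adj u v → s(u, v) ≠ s(p, r) → c (f2 u) ≠ c (f2 v)) ∧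
        c (f2 r) = c (f1 w) := by
      intro s t hst
      obtain ⟨c', hc'⟩ := hT1.2.1 s t hst
      obtain ⟨c2, hc2⟩ := hT2.2.1 p r hpr
      obtain ⟨σ, hσ⟩ := perm1 (c2 p) (c' w)
      obtain ⟨c, hca, hcb⟩ := g.lift c' (fun u => σ (c2 u)) hσ.symm
      have e2 := hT2.eq c2 hc2
      refine ⟨c, ?_, ?_, ?_⟩
      · intro u v huv hs
        rw [hca, hca]
        exact hc' u v huv hs
      · intro u v huv hs
        rw [hcb, hcb]
        exact fun hh => hc2 u v huv hs (σ.injective hh)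
      · rw [hcb, hca, ← e2, hσ]
    intro z z' hzz'
    rcases hzz' with ⟨s, t, hst, hs1, hs2, rfl, rfl⟩ | ⟨s, t, hst, hs', rfl, rfl⟩ |
      ⟨t, hwt, hSt, hzt⟩
    · obtain ⟨c, hca, hcb, hcr⟩ := key1 s t hst
      refine ⟨c, ?_⟩
      rintro u v (⟨s', t', hst', hs1', hs2', rfl, rfl⟩ | ⟨s', t', hst', hs', rfl, rfl⟩ |
        ⟨t', hwt', hSt', ⟨rfl, rfl⟩ | ⟨rfl, rfl⟩⟩) hne
      · refine hca s' t' hst' ?_
        intro hh
        apply hne
        have := congrArg (Sym2.map f1) hh
        simpa using this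
      · exact hcb s' t' hst' hs'
      · rw [hcr]
        refine hca t' w hwt'.symm ?_
        intro hh
        rw [Sym2.eq_iff] at hh
        rcases hh with ⟨h1, h2⟩ | ⟨h1, h2⟩
        · exact hs2 ⟨h2.symm, h1 ▸ hSt'⟩
        · exact hs1 ⟨h2.symm, h1 ▸ hSt'⟩
      · rw [hcr]
        refine hca w t' hwt' ?_
        intro hh
        rw [Sym2.eq_iff] at hh
        rcases hh with ⟨h1, h2⟩ | ⟨h1, h2⟩
        · exact hs1 ⟨h1.symm, h2 ▸ hSt'⟩
        · exact hs2 ⟨h1.symm, h2 ▸ hSt'⟩
    · obtain ⟨c2, hc2⟩ := hT2.2.1 s t hst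
      have e1 := hc2 p r hpr hs'.symm
      obtain ⟨σ, hσ, hσ'⟩ := perm2 hwd e1
      obtain ⟨c, hca, hcb⟩ := g.lift (fun u => σ (c1 u)) c2 hσ
      refine ⟨c, ?_⟩
      rintro u v (⟨s', t', hst', hs1', hs2', rfl, rfl⟩ | ⟨s', t', hst', hs'', rfl, rfl⟩ |
        ⟨t', hwt', hSt', ⟨rfl, rfl⟩ | ⟨rfl, rfl⟩⟩) hne
      · rw [hca, hca]
        exact fun hh => hc1 s' t' hst' hs1' hs2' (σ.injective hh)
      · rw [hcb, hcb]
        refine hc2 s' t' hst' ?_
        intro hh
        apply hne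
        have := congrArg (Sym2.map f2) hh
        simpa using this
      · rw [hca, hcb, ← hσ']
        exact fun hh => hd t' hwt' hSt' (σ.injective hh)
      · rw [hca, hcb, ← hσ']
        exact fun hh => hd t' hwt' hSt' (σ.injective hh.symm)
    · obtain ⟨c, hca, hcb, hcr⟩ := key1 w t hwt
      have hzz : s(z, z') = s(f1 t, f2 r) := by
        rcases hzt with ⟨rfl, rfl⟩ | ⟨rfl, rfl⟩
        · rfl
        · exact Sym2.eq_swap
      refine ⟨c, ?_⟩
      rintro u v (⟨s', t', hst', hs1', hs2', rfl, rfl⟩ | ⟨s', t', hst', hs'', rfl, rfl⟩ |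
        ⟨t', hwt', hSt', ⟨rfl, rfl⟩ | ⟨rfl, rfl⟩⟩) hne
      · refine hca s' t' hst' ?_
        intro hh
        rw [Sym2.eq_iff] at hh
        rcases hh with ⟨h1, h2⟩ | ⟨h1, h2⟩
        · exact hs1' ⟨h1, h2 ▸ hSt⟩
        · exact hs2' ⟨h2, h1 ▸ hSt⟩
      · exact hcb s' t' hst' hs''
      · rw [hcr]
        refine hca t' w hwt'.symm ?_
        intro hh
        rw [Sym2.eq_iff] at hh
        rcases hh with ⟨h1, h2⟩ | ⟨h1, h2⟩
        · exact hwt.ne h2
        · apply hne
          rw [hzz, h1]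
      · rw [hcr]
        refine hca w t' hwt' ?_
        intro hh
        rw [Sym2.eq_iff] at hh
        rcases hh with ⟨h1, h2⟩ | ⟨h1, h2⟩
        · apply hne
          rw [hzz, h2]
          exact Sym2.eq_swap
        · exact hwt.ne h1
  · intro z
    rcases g.cover z with ⟨u, rfl⟩ | ⟨u, rfl⟩
    · by_cases hu : u = w
      · subst hu
        obtain ⟨y', hy', hadj⟩ := hT2.other hq hpr
        refine ⟨f2 y', Or.inr (Or.inl ⟨p, y', hadj, ?_, g.glue.symm, rfl⟩)⟩
        intro hs
        rw [Sym2.eq_iff] at hs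
        rcases hs with ⟨_, h⟩ | ⟨h, h'⟩
        · exact hy' h
        · exact hpr.ne h
      · obtain ⟨v, huv⟩ := hT1.2.2 u
        by_cases hv : v = w ∧ S u
        · obtain ⟨rfl, hS⟩ := hv
          exact ⟨f2 r, Or.inr (Or.inr ⟨u, huv.symm, hS, Or.inl ⟨rfl, rfl⟩⟩)⟩
        · exact ⟨f1 v, Or.inl ⟨u, v, huv, fun h => hu h.1, hv, rfl, rfl⟩⟩
    · by_cases hu : u = p
      · subst hu
        obtain ⟨y', hy', hadj⟩ := hT2.other hq hpr
        refine ⟨f2 y', Or.inr (Or.inl ⟨u, y', hadj, ?_, rfl, rfl⟩)⟩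
        intro hs
        rw [Sym2.eq_iff] at hs
        rcases hs with ⟨_, h⟩ | ⟨h, h'⟩
        · exact hy' h
        · exact hpr.ne h
      · by_cases hu' : u = r
        · subst hu'
          obtain ⟨y', hy', hadj⟩ := hT2.other hq hpr.symm
          refine ⟨f2 y', Or.inr (Or.inl ⟨u, y', hadj, ?_, rfl, rfl⟩)⟩
          intro hs
          rw [Sym2.eq_iff] at hs
          rcases hs with ⟨h, _⟩ | ⟨_, h⟩
          · exact hu h
          · exact hy' h
        · obtain ⟨v, huv⟩ := hT2.2.2 u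
          refine ⟨f2 v, Or.inr (Or.inl ⟨u, v, huv, ?_, rfl, rfl⟩)⟩
          intro hs
          rw [Sym2.eq_iff] at hs
          rcases hs with ⟨h, _⟩ | ⟨h, _⟩
          · exact hu h
          · exact hu' h

lemma ore_mem {q : ℕ} (hq : 2 ≤ q) {C : (n : ℕ) → SimpleGraph (Fin n) → Prop} (hC : Cl q C)
    {a b m : ℕ} {T1 : SimpleGraph (Fin a)} {T2 : SimpleGraph (Fin b)}
    {w : Fin a} {S : Fin a → Prop} {p r : Fin b} {f1 : Fin a → Fin m} {f2 : Fin b → Fin m}
    (g : Glue w p f1 f2)
    (hT1 : Cr q T1) (hCT1 : C a T1) (hT2 : Cr q T2) (hCT2 : C b T2) (hpr : T2.Adj p r)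
    (hO : Cr q (oreG T1 T2 w S p r f1 f2 g)) :
    C m (oreG T1 T2 w S p r f1 f2 g) := by
  classical
  refine mem_of_inD hC _ hO ?_
  refine merge hq hC _ T2 hT2 hCT2 p r hpr f2 ?_ _ a T1 f1 hT1 hCT1 ?_ le_rfl
  · intro u v huv hs
    exact Or.inr (Or.inl ⟨u, v, huv, hs, rfl, rfl⟩)
  · intro u v huv
    by_cases h1 : u = w ∧ S v
    · obtain ⟨rfl, hS⟩ := h1
      exact Or.inr (Or.inl ⟨g.glue, Or.inr (Or.inr ⟨v, huv, hS, Or.inr ⟨rfl, rfl⟩⟩)⟩)
    · by_cases h2 : v = w ∧ S u
      · obtain ⟨rfl, hS⟩ := h2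
        exact Or.inr (Or.inr ⟨g.glue, Or.inr (Or.inr ⟨u, huv.symm, hS, Or.inr ⟨rfl, rfl⟩⟩)⟩)
      · exact Or.inl (Or.inl ⟨u, v, huv, h1, h2, rfl, rfl⟩)

lemma extract {q : ℕ} (hq : 1 ≤ q) {W : Type} [Fintype W] (B : SimpleGraph W)
    (hB : ∀ c : W → Fin q, ∃ u v, B.Adj u v ∧ c u = c v) :
    ∃ a ≤ Fintype.card W, ∃ T : SimpleGraph (Fin a), Cr q T ∧ ∃ ι : Fin a → W,
      Function.Injective ι ∧ ∀ u v, T.Adj u v → B.Adj (ι u) (ι v) := by
  classical
  let P : ℕ → Prop := fun a => ∃ T : SimpleGraph (Fin a),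
    (∀ c : Fin a → Fin q, ∃ u v, T.Adj u v ∧ c u = c v) ∧ ∃ ι : Fin a → W,
      Function.Injective ι ∧ ∀ u v, T.Adj u v → B.Adj (ι u) (ι v)
  have hP : P (Fintype.card W) := by
    let e := Fintype.equivFin W
    refine ⟨B.comap e.symm, ?_, e.symm, e.symm.injective, fun u v h => h⟩
    intro c
    obtain ⟨u, v, huv, he⟩ := hB (fun x => c (e x))
    exact ⟨e u, e v, by simpa using huv, he⟩
  have hex : ∃ a, P a := ⟨_, hP⟩
  obtain ⟨T0, hT0, ι, hι, hιB⟩ := Nat.find_spec hex
  have hmin : ∀ b < Nat.find hex, ¬ P b := fun b hb => Nat.find_min hex hb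
  have hle : Nat.find hex ≤ Fintype.card W := Nat.find_min' hex hP
  generalize Nat.find hex = a at *
  obtain ⟨T, hTle, hTmin⟩ := (Set.toFinite {T : SimpleGraph (Fin a) | T ≤ T0 ∧
    ∀ c : Fin a → Fin q, ∃ u v, T.Adj u v ∧ c u = c v}).exists_le_minimal
    (a := T0) ⟨le_rfl, hT0⟩
  obtain ⟨⟨_, hTn⟩, hTm⟩ := hTmin
  refine ⟨a, hle, T, ⟨hTn, ?_, ?_⟩, ι, hι, fun u v h => hιB u v (hTle h)⟩
  · intro x y hxy
    by_contra hcon
    push Not at hcon
    have hlt : T.deleteEdges {s(x, y)} ∈ {T : SimpleGraph (Fin a) | T ≤ T0 ∧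
      ∀ c : Fin a → Fin q, ∃ u v, T.Adj u v ∧ c u = c v} := by
      refine ⟨(T.deleteEdges_le _).trans hTle, fun c => ?_⟩
      obtain ⟨u, v, huv, hs, he⟩ := hcon c
      refine ⟨u, v, ?_, he⟩
      rw [SimpleGraph.deleteEdges_adj]
      exact ⟨huv, by simpa using hs⟩
    have := hTm hlt (T.deleteEdges_le _) hxy
    rw [SimpleGraph.deleteEdges_adj] at this
    exact this.2 rfl
  · intro v
    by_contra hcon
    push Not at hcon
    obtain ⟨a', rfl⟩ : ∃ a', a = a' + 1 := ⟨a - 1, by have := v.2; omega⟩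
    refine hmin a' (Nat.lt_succ_self _) ⟨T.comap v.succAbove, ?_, ι ∘ v.succAbove,
      hι.comp Fin.succAbove_right_injective, fun x y h => hιB _ _ (hTle h)⟩
    intro c
    let c' : Fin (a' + 1) → Fin q := v.insertNth (⟨0, hq⟩ : Fin q) c
    obtain ⟨x, y, hxy, he⟩ := hTn c'
    have hx : x ≠ v := by
      rintro rfl; exact hcon y hxy
    have hy : y ≠ v := by
      rintro rfl; exact hcon x hxy.symm
    obtain ⟨x', rfl⟩ := Fin.exists_succAbove_eq hx
    obtain ⟨y', rfl⟩ := Fin.exists_succAbove_eq hy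
    refine ⟨x', y', hxy, ?_⟩
    simpa [c'] using he


lemma top_cr {q : ℕ} (hq : 1 ≤ q) : Cr q (⊤ : SimpleGraph (Fin (q + 1))) := by
  classical
  refine ⟨?_, ?_, ?_⟩
  · intro c
    obtain ⟨u, v, huv, he⟩ := Fintype.exists_ne_map_eq_of_card_lt c (by simp)
    exact ⟨u, v, huv, he⟩
  · intro a b hab
    have hab' : a ≠ b := hab
    -- collapse `b` onto `a`
    have hex : ∀ x : Fin (q + 1), ∃ y : Fin q, b.succAbove y = if x = b then a else x := by
      intro x
      have : (if x = b then a else x) ≠ b := by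
        split_ifs with h
        · exact hab'
        · exact h
      exact Fin.exists_succAbove_eq this
    choose g hg using hex
    refine ⟨g, fun u v huv hs he => ?_⟩
    have huv' : u ≠ v := huv
    have h1 := hg u
    have h2 := hg v
    rw [he, h2] at h1
    split_ifs at h1 with h3 h4 h4
    · exact huv' (h4.trans h3.symm)
    · exact hs (by rw [← h1, h3])
    · exact hs (by rw [h1, h4, Sym2.eq_swap])
    · exact huv' h1.symm
  · intro v
    have : Nontrivial (Fin (q + 1)) := Fin.nontrivial_iff_two_le.2 (by omega)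
    obtain ⟨u, hu⟩ := exists_ne v
    exact ⟨u, hu.symm⟩

lemma main_step {q : ℕ} (hq : 2 ≤ q) {C : (n : ℕ) → SimpleGraph (Fin n) → Prop} (hC : Cl q C)
    (n : ℕ) (IH : ∀ m < n, ∀ T : SimpleGraph (Fin m), Cr q T → C m T) :
    ∀ X : SimpleGraph (Fin n), (∀ c : Fin n → Fin q, ∃ u v, X.Adj u v ∧ c u = c v) →
      InD q C X := by
  classical
  intro X
  induction X using WellFoundedGT.induction with
  | ind X IHX =>
  intro hX
  -- an edge-minimal non-colourable subgraph
  obtain ⟨G, hGX, hGmin⟩ := (Set.toFinite {T : SimpleGraph (Fin n) | T ≤ X ∧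
    ∀ c : Fin n → Fin q, ∃ u v, T.Adj u v ∧ c u = c v}).exists_le_minimal
    (a := X) ⟨le_rfl, hX⟩
  obtain ⟨⟨_, hGn⟩, hGm⟩ := hGmin
  have hdel : ∀ a b, G.Adj a b → ∃ c : Fin n → Fin q, ∀ u v, G.Adj u v → s(u, v) ≠ s(a, b) →
      c u ≠ c v := by
    intro x y hxy
    by_contra hcon
    push Not at hcon
    have hlt : G.deleteEdges {s(x, y)} ∈ {T : SimpleGraph (Fin n) | T ≤ X ∧
      ∀ c : Fin n → Fin q, ∃ u v, T.Adj u v ∧ c u = c v} := by
      refine ⟨(G.deleteEdges_le _).trans hGX, fun c => ?_⟩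
      obtain ⟨u, v, huv, hs, he⟩ := hcon c
      refine ⟨u, v, ?_, he⟩
      rw [SimpleGraph.deleteEdges_adj]
      exact ⟨huv, by simpa using hs⟩
    have := hGm hlt (G.deleteEdges_le _) hxy
    rw [SimpleGraph.deleteEdges_adj] at this
    exact this.2 rfl
  obtain ⟨z, v0, hzv0, _⟩ := hGn (fun _ => ⟨0, by omega⟩)
  obtain ⟨c0, hc0⟩ := hdel z v0 hzv0
  have hcol : ∀ d : Fin q, ∃ v, G.Adj z v ∧ c0 v = d := by
    intro d
    by_contra hcon
    push Not at hcon
    obtain ⟨u, v, huv, he⟩ := hGn (Function.update c0 z d)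
    by_cases hu : u = z
    · subst hu
      rw [Function.update_self, Function.update_of_ne huv.ne'] at he
      exact hcon v huv he.symm
    · by_cases hv : v = z
      · subst hv
        rw [Function.update_self, Function.update_of_ne hu] at he
        exact hcon u huv.symm he
      · rw [Function.update_of_ne hu, Function.update_of_ne hv] at he
        refine hc0 u v huv ?_ he
        intro hs
        rw [Sym2.eq_iff] at hs
        rcases hs with ⟨h1, _⟩ | ⟨_, h1⟩
        · exact hu h1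
        · exact hv h1
  choose nb hnb1 hnb2 using hcol
  by_cases hclique : ∀ d d', d ≠ d' → X.Adj (nb d) (nb d')
  · refine ⟨q + 1, ⊤, top_cr (by omega), hC.top, Fin.cons z nb, ?_⟩
    intro u v huv
    have huv' : u ≠ v := huv
    induction u using Fin.cases with
    | zero =>
      induction v using Fin.cases with
      | zero => exact absurd rfl huv'
      | succ v => simpa using hGX (hnb1 v)
    | succ u =>
      induction v using Fin.cases with
      | zero => simpa using (hGX (hnb1 u)).symm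
      | succ v =>
        simp only [Fin.cons_succ]
        exact hclique u v (fun h => huv' (by rw [h]))
  · push Not at hclique
    obtain ⟨d, d', hdd, hnadj⟩ := hclique
    have hzx : G.Adj z (nb d) := hnb1 d
    have hzy : G.Adj z (nb d') := hnb1 d'
    have hxy : nb d ≠ nb d' := by
      intro h
      apply hdd
      rw [← hnb2 d, ← hnb2 d', h]
    generalize nb d = x at *
    generalize nb d' = y at *
    clear hnb1 hnb2 nb
    -- `X + xy`
    let X' : SimpleGraph (Fin n) := X ⊔ SimpleGraph.edge x y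
    have hX'adj : ∀ u v, X'.Adj u v ↔ X.Adj u v ∨ (u = x ∧ v = y) ∨ (u = y ∧ v = x) := by
      intro u v
      simp only [X', SimpleGraph.sup_adj, SimpleGraph.edge_adj]
      constructor
      · rintro (h | ⟨⟨h1, h2⟩ | ⟨h1, h2⟩, _⟩)
        · exact Or.inl h
        · exact Or.inr (Or.inl ⟨h1, h2⟩)
        · exact Or.inr (Or.inr ⟨h1, h2⟩)
      · rintro (h | ⟨h1, h2⟩ | ⟨h1, h2⟩)
        · exact Or.inl h
        · exact Or.inr ⟨Or.inl ⟨h1, h2⟩, by rw [h1, h2]; exact hxy⟩
        · exact Or.inr ⟨Or.inr ⟨h1, h2⟩, by rw [h1, h2]; exact hxy.symm⟩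
    have hXX' : X < X' := by
      refine lt_of_le_of_ne le_sup_left ?_
      intro h
      apply hnadj
      rw [h, hX'adj]
      exact Or.inr (Or.inl ⟨rfl, rfl⟩)
    have hX'n : ∀ c : Fin n → Fin q, ∃ u v, X'.Adj u v ∧ c u = c v := by
      intro c
      obtain ⟨u, v, huv, he⟩ := hX c
      exact ⟨u, v, hXX'.le huv, he⟩
    obtain ⟨b0, T20, hT20, hCT20, φ0, hφ0⟩ := IHX X' hXX' hX'n
    -- `A = G - yz`
    obtain ⟨cA, hcA⟩ := hdel z y hzy
    have hA : ∃ A : SimpleGraph (Fin n), ∀ u v, A.Adj u v ↔ G.Adj u v ∧ s(u, v) ≠ s(z, y) := by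
      refine ⟨G.deleteEdges {s(z, y)}, fun u v => ?_⟩
      rw [SimpleGraph.deleteEdges_adj]
      simp
    obtain ⟨A, hAadj⟩ := hA
    have hcA' : ∀ u v, A.Adj u v → cA u ≠ cA v := by
      intro u v h
      rw [hAadj] at h
      exact hcA u v h.1 h.2
    have hAX : ∀ u v, A.Adj u v → X.Adj u v := fun u v h => hGX ((hAadj u v).1 h).1
    -- `B = A/(x=y)`
    let B : SimpleGraph {v : Fin n // v ≠ y} :=
      { Adj := fun u v => A.Adj u v ∨ (u.1 = x ∧ A.Adj y v) ∨ (v.1 = x ∧ A.Adj y u)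
        symm := by
          refine ⟨?_⟩
          rintro u v (h | h | h)
          · exact Or.inl h.symm
          · exact Or.inr (Or.inr h)
          · exact Or.inr (Or.inl h)
        loopless := by
          refine ⟨?_⟩
          rintro u (h | ⟨h1, h2⟩ | ⟨h1, h2⟩)
          · exact h.ne rfl
          · rw [h1] at h2
            exact hnadj (hAX _ _ h2).symm
          · rw [h1] at h2
            exact hnadj (hAX _ _ h2).symm }
    have hBn : ∀ c : {v : Fin n // v ≠ y} → Fin q, ∃ u v, B.Adj u v ∧ c u = c v := by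
      intro c
      by_contra hcon
      push Not at hcon
      let c' : Fin n → Fin q := fun v => if h : v = y then c ⟨x, hxy⟩ else c ⟨v, h⟩
      have hc'y : c' y = c ⟨x, hxy⟩ := by simp [c']
      have hc'n : ∀ v (h : v ≠ y), c' v = c ⟨v, h⟩ := by
        intro v h
        simp [c', h]
      -- edges at `y`
      have hy : ∀ v, G.Adj y v → c' y ≠ c' v := by
        intro v hyv
        have hvy : v ≠ y := hyv.ne'
        rw [hc'y, hc'n v hvy]
        apply hcon
        by_cases hvz : v = z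
        · subst hvz
          left
          show A.Adj x v
          rw [hAadj]
          refine ⟨hzx.symm, ?_⟩
          intro hs
          rw [Sym2.eq_iff] at hs
          rcases hs with ⟨_, h⟩ | ⟨h, _⟩
          · exact hvy h
          · exact hxy h
        · right; left
          refine ⟨rfl, ?_⟩
          show A.Adj y v
          rw [hAadj]
          refine ⟨hyv, ?_⟩
          intro hs
          rw [Sym2.eq_iff] at hs
          rcases hs with ⟨_, h⟩ | ⟨_, h⟩
          · exact hvy h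
          · exact hvz h
      obtain ⟨u, v, huv, he⟩ := hGn c'
      by_cases hu : u = y
      · subst hu
        exact hy v huv he
      · by_cases hv : v = y
        · subst hv
          exact hy u huv.symm he.symm
        · rw [hc'n u hu, hc'n v hv] at he
          refine hcon _ _ (Or.inl ?_) he
          show A.Adj u v
          rw [hAadj]
          refine ⟨huv, ?_⟩
          intro hs
          rw [Sym2.eq_iff] at hs
          rcases hs with ⟨_, h⟩ | ⟨h, _⟩
          · exact hv h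
          · exact hu h
    obtain ⟨a, ha, T1, hT1, ι, hι, hιB⟩ := extract (by omega) B hBn
    have hcard : Fintype.card {v : Fin n // v ≠ y} < n := by
      have := Fintype.card_subtype_lt (p := fun v : Fin n => v ≠ y) (x := y) (by simp)
      simpa using this
    have hCT1 : C a T1 := IH a (by omega) T1 hT1
    -- the vertex over `x`
    have hw : ∃ w, (ι w).1 = x := by
      by_contra hcon
      push Not at hcon
      obtain ⟨u, v, huv, he⟩ := hT1.1 (fun u => cA (ι u).1)
      refine hcA' _ _ ?_ he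
      rcases hιB u v huv with h | ⟨h, _⟩ | ⟨h, _⟩
      · exact h
      · exact absurd h (hcon u)
      · exact absurd h (hcon v)
    obtain ⟨w, hw⟩ := hw
    have hwu : ∀ u, (ι u).1 = x → u = w := by
      intro u hu
      apply hι
      apply Subtype.ext
      rw [hu, hw]
    let S : Fin a → Prop := fun v => ¬ A.Adj x (ι v).1
    have hS1 : ∀ v, T1.Adj w v → S v → A.Adj y (ι v).1 := by
      intro v hwv hS
      rcases hιB w v hwv with h | ⟨_, h⟩ | ⟨h, _⟩
      · rw [hw] at h
        exact absurd h hS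
      · exact h
      · exact absurd (hwu v h) hwv.ne'
    have hS2 : ∀ u v, T1.Adj u v → ¬ (u = w ∧ S v) → ¬ (v = w ∧ S u) →
        A.Adj (ι u).1 (ι v).1 := by
      intro u v huv h1 h2
      rcases hιB u v huv with h | ⟨h, h3⟩ | ⟨h, h3⟩
      · exact h
      · have hu := hwu u h
        rw [h]
        by_contra h4
        exact h1 ⟨hu, h4⟩
      · have hv := hwu v h
        rw [h]
        by_contra h4
        exact h2 ⟨hv, fun h5 => h4 h5.symm⟩
    -- reduction of the number of edges over `xy`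
    have red : ∀ (N b : ℕ) (T2 : SimpleGraph (Fin b)) (φ : Fin b → Fin n), Cr q T2 → C b T2 →
        (∀ u v, T2.Adj u v → X'.Adj (φ u) (φ v)) →
        Set.ncard {e : Fin b × Fin b | T2.Adj e.1 e.2 ∧ φ e.1 = x ∧ φ e.2 = y} ≤ N →
        InD q C X := by
      intro N
      induction N with
      | zero =>
        intro b T2 φ hT2 hCT2 hφ hN
        refine ⟨b, T2, hT2, hCT2, φ, fun u v huv => ?_⟩
        have h0 : {e : Fin b × Fin b | T2.Adj e.1 e.2 ∧ φ e.1 = x ∧ φ e.2 = y} = ∅ := by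
          rw [← Set.ncard_eq_zero (Set.toFinite _)]
          omega
        rcases (hX'adj _ _).1 (hφ u v huv) with h | ⟨h1, h2⟩ | ⟨h1, h2⟩
        · exact h
        · exfalso
          have : (u, v) ∈ {e : Fin b × Fin b | T2.Adj e.1 e.2 ∧ φ e.1 = x ∧ φ e.2 = y} :=
            ⟨huv, h1, h2⟩
          rw [h0] at this
          exact this
        · exfalso
          have : (v, u) ∈ {e : Fin b × Fin b | T2.Adj e.1 e.2 ∧ φ e.1 = x ∧ φ e.2 = y} :=
            ⟨huv.symm, h2, h1⟩
          rw [h0] at this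
          exact this
      | succ N ih =>
        intro b T2 φ hT2 hCT2 hφ hN
        by_cases hex : ∃ p r, T2.Adj p r ∧ φ p = x ∧ φ r = y
        · obtain ⟨p, r, hpr, hp, hr⟩ := hex
          obtain ⟨m, f1, f2, g⟩ := exists_glue a b w p
          have hO : Cr q (oreG T1 T2 w S p r f1 f2 g) := by
            refine ore_cr hq g hT1 hT2 hpr (fun v => cA (ι v).1) (cA y) ?_ ?_
            · intro u v huv h1 h2
              exact hcA' _ _ (hS2 u v huv h1 h2)
            · intro v hwv hS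
              exact (hcA' _ _ (hS1 v hwv hS)).symm
          have hCO := ore_mem hq hC g hT1 hCT1 hT2 hCT2 hpr hO
          obtain ⟨φ', h1, h2⟩ := g.lift (fun v => (ι v).1) φ (by rw [hw, hp])
          refine ih m _ φ' hO hCO ?_ ?_
          · rintro u v (⟨s, t, hst, hs1, hs2, rfl, rfl⟩ | ⟨s, t, hst, hs', rfl, rfl⟩ |
              ⟨t, hwt, hSt, ⟨rfl, rfl⟩ | ⟨rfl, rfl⟩⟩)
            · rw [h1, h1]
              exact hXX'.le (hAX _ _ (hS2 s t hst hs1 hs2))
            · rw [h2, h2]
              exact hφ s t hst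
            · rw [h1, h2, hr]
              exact hXX'.le (hAX _ _ (hS1 t hwt hSt)).symm
            · rw [h1, h2, hr]
              exact hXX'.le (hAX _ _ (hS1 t hwt hSt))
          · have hsub : {e : Fin m × Fin m | (oreG T1 T2 w S p r f1 f2 g).Adj e.1 e.2 ∧
                φ' e.1 = x ∧ φ' e.2 = y} ⊆
                (Prod.map f2 f2) '' ({e : Fin b × Fin b | T2.Adj e.1 e.2 ∧ φ e.1 = x ∧
                  φ e.2 = y} \ {(p, r)}) := by
              rintro ⟨u, v⟩ ⟨hadj, h3, h4⟩
              simp only at h3 h4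
              rcases hadj with ⟨s, t, hst, hs1, hs2, h5, h6⟩ | ⟨s, t, hst, hs', h5, h6⟩ |
                ⟨t, hwt, hSt, ⟨h5, h6⟩ | ⟨h5, h6⟩⟩
              · simp only at h5 h6
                subst h5
                subst h6
                rw [h1] at h3 h4
                have := hAX _ _ (hS2 s t hst hs1 hs2)
                rw [h3, h4] at this
                exact absurd this hnadj
              · simp only at h5 h6
                subst h5
                subst h6
                rw [h2] at h3 h4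
                refine ⟨(s, t), ⟨⟨hst, h3, h4⟩, ?_⟩, rfl⟩
                intro hh
                rw [Set.mem_singleton_iff, Prod.mk.injEq] at hh
                apply hs'
                rw [hh.1, hh.2]
              · simp only at h5 h6
                subst h5
                subst h6
                rw [h1] at h3
                exact absurd (hwu t h3) hwt.ne'
              · simp only at h5 h6
                subst h5
                subst h6
                rw [h2, hr] at h3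
                exact absurd h3.symm hxy
            have hmem : (p, r) ∈ {e : Fin b × Fin b | T2.Adj e.1 e.2 ∧ φ e.1 = x ∧ φ e.2 = y} :=
              ⟨hpr, hp, hr⟩
            have l1 := Set.ncard_le_ncard hsub (Set.toFinite _)
            have l2 := Set.ncard_image_le (f := Prod.map f2 f2) (s := ({e : Fin b × Fin b |
              T2.Adj e.1 e.2 ∧ φ e.1 = x ∧ φ e.2 = y} \ {(p, r)})) (Set.toFinite _)
            have l3 := Set.ncard_sdiff_singleton_lt_of_mem hmem (Set.toFinite _)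
            omega
        · push Not at hex
          refine ⟨b, T2, hT2, hCT2, φ, fun u v huv => ?_⟩
          rcases (hX'adj _ _).1 (hφ u v huv) with h | ⟨h1, h2⟩ | ⟨h1, h2⟩
          · exact h
          · exact absurd h2 (hex u v huv h1)
          · exact absurd h1 (hex v u huv.symm h2)
    exact red _ b0 T20 φ0 hT20 hCT20 hφ0 le_rfl

lemma main {q : ℕ} (hq : 2 ≤ q) {C : (n : ℕ) → SimpleGraph (Fin n) → Prop} (hC : Cl q C) :
    ∀ (n : ℕ) (G : SimpleGraph (Fin n)), Cr q G → C n G := by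
  intro n
  induction n using Nat.strong_induction_on with
  | _ n IH =>
    intro G hG
    exact mem_of_inD hC G hG (main_step hq hC n IH G hG.1)

lemma col_of {q : ℕ} {V : Type} {G : SimpleGraph V} (c : V → Fin q)
    (h : ∀ u v, G.Adj u v → c u ≠ c v) : G.Colorable q :=
  ⟨SimpleGraph.Coloring.mk c (fun {u v} huv => h u v huv)⟩

lemma colorable_of_lt {q : ℕ} {V : Type} {G : SimpleGraph V}
    (h : G.chromaticNumber < ((q + 1 : ℕ) : ℕ∞)) : G.Colorable q := by
  have h1 : G.chromaticNumber ≤ (q : ℕ∞) := by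
    have : ((q + 1 : ℕ) : ℕ∞) = (q : ℕ∞) + 1 := by push_cast; rfl
    rw [this] at h
    exact Order.le_of_lt_add_one h
  exact SimpleGraph.chromaticNumber_le_iff_colorable.1 h1

lemma lt_of_colorable {q : ℕ} {V : Type} {G : SimpleGraph V}
    (h : G.Colorable q) : G.chromaticNumber < ((q + 1 : ℕ) : ℕ∞) := by
  refine lt_of_le_of_lt (SimpleGraph.chromaticNumber_le_iff_colorable.2 h) ?_
  exact_mod_cast Nat.lt_succ_self q

lemma cr_of_critical {q : ℕ} (hq : 1 ≤ q) {V : Type} {G : SimpleGraph V} (h : IsCritical (q + 1) G) :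
    Cr q G := by
  classical
  have hn : ∀ c : V → Fin q, ∃ u v, G.Adj u v ∧ c u = c v := by
    intro c
    by_contra hcon
    push Not at hcon
    have := lt_of_colorable (col_of c hcon)
    rw [h.1] at this
    exact lt_irrefl _ this
  refine ⟨hn, ?_, ?_⟩
  · intro a b hab
    let S : G.Subgraph :=
      { verts := Set.univ
        Adj := fun u v => G.Adj u v ∧ s(u, v) ≠ s(a, b)
        adj_sub := fun h => h.1
        edge_vert := fun _ => Set.mem_univ _
        symm := by
          refine ⟨?_⟩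
          rintro u v ⟨h1, h2⟩
          exact ⟨h1.symm, by rwa [Sym2.eq_swap]⟩ }
    have hS : S ≠ ⊤ := by
      intro hS
      have : S.Adj a b := by rw [hS]; exact hab
      exact this.2 rfl
    obtain ⟨c⟩ := colorable_of_lt (h.2 S hS)
    refine ⟨fun u => c ⟨u, Set.mem_univ _⟩, fun u v huv hs => ?_⟩
    exact c.valid (v := ⟨u, Set.mem_univ _⟩) (w := ⟨v, Set.mem_univ _⟩) ⟨huv, hs⟩
  · intro v
    by_contra hcon
    push Not at hcon
    let S : G.Subgraph :=
      { verts := {v}ᶜ
        Adj := G.Adj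
        adj_sub := fun h => h
        edge_vert := by
          intro x y hxy hx
          rw [Set.mem_singleton_iff] at hx
          subst hx
          exact hcon y hxy
        symm := G.symm }
    have hS : S ≠ ⊤ := by
      intro hS
      have : v ∈ S.verts := by rw [hS]; trivial
      exact this rfl
    obtain ⟨c⟩ := colorable_of_lt (h.2 S hS)
    obtain ⟨x, y, hxy, he⟩ := hn (fun u => if hu : u = v then ⟨0, hq⟩ else c ⟨u, hu⟩)
    have hx : x ≠ v := by rintro rfl; exact hcon y hxy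
    have hy : y ≠ v := by rintro rfl; exact hcon x hxy.symm
    simp only [hx, hy, dif_neg, not_false_eq_true] at he
    exact c.valid (v := ⟨x, hx⟩) (w := ⟨y, hy⟩) hxy he

lemma critical_of_cr {q : ℕ} (hq : 1 ≤ q) {V : Type} {G : SimpleGraph V} (h : Cr q G) :
    IsCritical (q + 1) G := by
  classical
  have hn : ¬ G.Colorable q := by
    rintro ⟨c⟩
    obtain ⟨u, v, huv, he⟩ := h.1 c
    exact c.valid huv he
  obtain ⟨a, b, hab, _⟩ := h.1 (fun _ => ⟨0, hq⟩)
  obtain ⟨c, hc⟩ := h.2.1 a b hab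
  have hcol : G.Colorable (q + 1) := by
    refine col_of (fun u => if u = a then Fin.last q else (c u).castSucc) ?_
    intro u v huv
    by_cases hu : u = a
    · subst hu
      simp only [if_true, if_neg huv.ne']
      exact (Fin.castSucc_lt_last _).ne'
    · by_cases hv : v = a
      · subst hv
        simp only [if_true, if_neg hu]
        exact (Fin.castSucc_lt_last _).ne
      · simp only [if_neg hu, if_neg hv]
        intro he
        refine hc u v huv ?_ (Fin.castSucc_injective _ he)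
        intro hs
        rw [Sym2.eq_iff] at hs
        rcases hs with ⟨h1, _⟩ | ⟨_, h1⟩
        · exact hu h1
        · exact hv h1
  refine ⟨?_, ?_⟩
  · apply le_antisymm
    · exact SimpleGraph.chromaticNumber_le_iff_colorable.2 hcol
    · by_contra hcon
      exact hn (colorable_of_lt (not_le.1 hcon))
  · intro S hS
    apply lt_of_colorable
    by_cases hv : ∃ v, v ∉ S.verts
    · obtain ⟨v, hv⟩ := hv
      obtain ⟨u, hvu⟩ := h.2.2 v
      obtain ⟨c, hc⟩ := h.2.1 v u hvu
      refine col_of (fun x => c x.1) ?_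
      intro x y hxy
      refine hc _ _ (S.adj_sub hxy) ?_
      intro hs
      rw [Sym2.eq_iff] at hs
      rcases hs with ⟨h1, _⟩ | ⟨_, h1⟩
      · exact hv (h1 ▸ x.2)
      · exact hv (h1 ▸ y.2)
    · push Not at hv
      have hex : ∃ x y, G.Adj x y ∧ ¬ S.Adj x y := by
        by_contra hcon
        push Not at hcon
        apply hS
        ext x y
        · simp [hv x]
        · exact ⟨fun h => S.adj_sub h, fun h => hcon x y h⟩
      obtain ⟨x, y, hxy, hSxy⟩ := hex
      obtain ⟨c, hc⟩ := h.2.1 x y hxy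
      refine col_of (fun x => c x.1) ?_
      intro u v huv
      refine hc _ _ (S.adj_sub huv) ?_
      intro hs
      rw [Sym2.eq_iff] at hs
      have huv' : S.Adj u.1 v.1 := huv
      rcases hs with ⟨h1, h2⟩ | ⟨h1, h2⟩
      · rw [h1, h2] at huv'
        exact hSxy huv'
      · rw [h1, h2] at huv'
        exact hSxy huv'.symm

lemma Constructible.iso {k n m : ℕ} {G : SimpleGraph (Fin n)} {H : SimpleGraph (Fin m)}
    (hG : Constructible k G) (e : G ≃g H) : Constructible k H := by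
  cases hG with
  | complete _ h => exact .complete H ⟨e.symm.trans h.some⟩
  | join G1 G2 _ h1 h2 hc1 hc2 h =>
    refine .join G1 G2 H h1 h2 hc1 hc2 ?_
    obtain ⟨x1, y1, x2, y2, f1, f2, hx1, hx2, i1, i2, hg, hsep, hcov, hadj⟩ := h
    refine ⟨x1, y1, x2, y2, e ∘ f1, e ∘ f2, hx1, hx2, e.injective.comp i1, e.injective.comp i2,
      congrArg e hg, fun p q h => hsep p q (e.injective h), ?_, ?_⟩
    · intro z
      rcases hcov (e.symm z) with ⟨p, hp⟩ | ⟨q, hq⟩
      · exact Or.inl ⟨p, by simp [hp]⟩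
      · exact Or.inr ⟨q, by simp [hq]⟩
    · intro z w
      obtain ⟨z, rfl⟩ := e.surjective z
      obtain ⟨w, rfl⟩ := e.surjective w
      rw [e.map_adj_iff, hadj]
      refine or_congr ?_ (or_congr ?_ ?_)
      · simp only [Function.comp_apply, e.injective.eq_iff]
      · simp only [Function.comp_apply, e.injective.eq_iff]
      · simp only [Function.comp_apply, Sym2.eq_iff, e.injective.eq_iff]
  | identify G _ h1 h =>
    refine .identify G H h1 ?_
    obtain ⟨u, v, f, huv, hadj', hsurj, hf, hadj⟩ := h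
    refine ⟨u, v, e ∘ f, huv, hadj', e.surjective.comp hsurj, ?_, ?_⟩
    · intro a b
      rw [← hf a b]
      exact e.injective.eq_iff
    · intro z w
      obtain ⟨z, rfl⟩ := e.surjective z
      obtain ⟨w, rfl⟩ := e.surjective w
      rw [e.map_adj_iff, hadj]
      simp only [Function.comp_apply, e.injective.eq_iff]

lemma closed (q : ℕ) (hq : 2 ≤ q) :
    Cl q (fun n (G : SimpleGraph (Fin n)) => Constructible (q + 1) G) where
  top := .complete _ ⟨SimpleGraph.Iso.refl⟩
  iso := fun n m G H hG ⟨e⟩ => hG.iso e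
  join := by
    intro a b m G1 G2 x1 y1 x2 y2 f1 f2 g h1 hC1 hC2 hcr1 hcr2 h2
    refine .join G1 G2 _ hC1 hC2 (critical_of_cr (by omega) hcr1) (critical_of_cr (by omega) hcr2)
      ⟨x1, y1, x2, y2, f1, f2, h1, h2, g.inj1, g.inj2, g.glue, g.sep, g.cover, ?_⟩
    intro z w
    show JR G1 G2 x1 y1 x2 y2 f1 f2 z w ↔ _
    unfold JR
    rw [show (s(z, w) = s(f1 y1, f2 y2)) ↔ ((z = f1 y1 ∧ w = f2 y2) ∨ (z = f2 y2 ∧ w = f1 y1))
      from Sym2.eq_iff]
    simp only [SimpleGraph.deleteEdges_adj, Set.mem_singleton_iff, and_assoc, ne_eq]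
  ident := by
    intro n m G H u v f hG huv hadj hsurj hfuv hf hH
    refine .identify G H hG ⟨u, v, f, huv, hadj, hsurj, ?_, hH⟩
    intro a b
    refine ⟨hf a b, ?_⟩
    rintro (rfl | ⟨rfl, rfl⟩ | ⟨rfl, rfl⟩)
    · rfl
    · exact hfuv
    · exact hfuv.symm

/-- For every `k`, every `k`-critical graph has a construction from copies of `K_k` by Hajos joins
and identifications of non-adjacent vertices in which every Hajos join is applied to two
`k`-critical graphs. -/
theorem result (k n : ℕ) (G : SimpleGraph (Fin n)) (hG : IsCritical k G) :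
    Constructible k G := by
  rcases Nat.lt_or_ge k 2 with hk | hk
  · interval_cases k
    · -- `k = 0`
      have hcol : G.Colorable 0 :=
        SimpleGraph.chromaticNumber_le_iff_colorable.1 (le_of_eq hG.1)
      obtain ⟨c⟩ := hcol
      have hn : n = 0 := by
        by_contra hn
        exact (c ⟨0, by omega⟩).elim0
      subst hn
      rw [Subsingleton.elim G ⊤]
      exact .complete _ ⟨SimpleGraph.Iso.refl⟩
    · -- `k = 1`
      have hn : n = 1 := by
        rcases Nat.lt_trichotomy n 1 with h | h | h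
        · have hn : n = 0 := by omega
          subst hn
          exfalso
          have h0 : G.Colorable 0 := col_of (fun u => u.elim0) (fun u => u.elim0)
          have := lt_of_colorable h0
          rw [hG.1] at this
          exact lt_irrefl _ this
        · exact h
        · exfalso
          let S : G.Subgraph :=
            { verts := {⟨0, by omega⟩}
              Adj := fun _ _ => False
              adj_sub := fun h => h.elim
              edge_vert := fun h => h.elim
              symm := ⟨fun _ _ h => h⟩ }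
          have hS : S ≠ ⊤ := by
            intro hS
            have : (⟨1, h⟩ : Fin n) ∈ S.verts := by rw [hS]; trivial
            have h2 := congrArg Fin.val (Set.mem_singleton_iff.1 this)
            simp at h2
          have h1 := hG.2 S hS
          obtain ⟨c⟩ := colorable_of_lt (q := 0) (G := S.coe) h1
          exact (c ⟨⟨0, by omega⟩, rfl⟩).elim0
      subst hn
      rw [Subsingleton.elim G ⊤]
      exact .complete _ ⟨SimpleGraph.Iso.refl⟩
  · obtain ⟨q, rfl⟩ : ∃ q, k = q + 1 := ⟨k - 1, by omega⟩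
    have hG' : Cr q G := cr_of_critical (by omega) hG
    rcases Nat.lt_or_ge q 2 with hq | hq
    · -- `k = 2`
      have hq1 : q = 1 := by omega
      subst hq1
      obtain ⟨a, b, hab, _⟩ := hG'.1 (fun _ => 0)
      obtain ⟨c, hc⟩ := hG'.2.1 a b hab
      have hall : ∀ u v, G.Adj u v → s(u, v) = s(a, b) := by
        intro u v huv
        by_contra hs
        exact hc u v huv hs (Subsingleton.elim _ _)
      have hverts : ∀ u, u = a ∨ u = b := by
        intro u
        obtain ⟨v, huv⟩ := hG'.2.2 u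
        have := hall u v huv
        rw [Sym2.eq_iff] at this
        rcases this with ⟨h, _⟩ | ⟨h, _⟩
        · exact Or.inl h
        · exact Or.inr h
      have htopG : G = ⊤ := by
        ext u v
        rw [SimpleGraph.top_adj]
        refine ⟨fun h => h.ne, fun h => ?_⟩
        rcases hverts u with rfl | rfl <;> rcases hverts v with rfl | rfl
        · exact absurd rfl h
        · exact hab
        · exact hab.symm
        · exact absurd rfl h
      have hcard : n = 2 := by
        have h1 : (Finset.univ : Finset (Fin n)) = {a, b} := by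
          ext u
          simpa using hverts u
        have h2 := congrArg Finset.card h1
        rw [Finset.card_univ, Fintype.card_fin, Finset.card_pair hab.ne] at h2
        exact h2
      subst hcard
      rw [htopG]
      exact .complete _ ⟨SimpleGraph.Iso.refl⟩
    · exact main hq (closed q hq) n G hG'

end Pool.Agent.Results.MP_c17804_co.CriticalJoins
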